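import Pool.Agent.W369.GM.Defs

set_option autoImplicit false

/-!
# The volume of a cross-polytope
-/

namespace Pool.Agent.W368.GM

open MeasureTheory Set Metric Pool.Agent.W369.GM

variable {d : ℕ}

theorem volume_l1 (d : ℕ) (hd : 0 < d) :
    volume {x : Fin d → ℝ | ∑ i, |x i| ≤ 1} = ENNReal.ofReal (2 ^ d / (d.factorial : ℝ)) := by
  have hne : Nonempty (Fin d) := ⟨⟨0, hd⟩⟩
  have h := MeasureTheory.volume_sum_rpow_le (ι := Fin d) (p := 1) le_rfl 1
  simp only [Real.rpow_one, ENNReal.ofReal_one, one_pow, one_mul, Fintype.card_fin, div_one] at h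
  rw [h]
  congr 2
  · rw [show (1 : ℝ) + 1 = 2 by norm_num, Real.Gamma_two, mul_one]
  · exact Real.Gamma_nat_eq_factorial d

theorem volume_E (d : ℕ) (hd : 0 < d) :
    volume {x : E d | ∑ i, |x i| ≤ 1} = ENNReal.ofReal (2 ^ d / (d.factorial : ℝ)) := by
  rw [← volume_l1 d hd]
  have hm : MeasurableSet {x : Fin d → ℝ | ∑ i, |x i| ≤ 1} :=
    (isClosed_le (by fun_prop) (by fun_prop)).measurableSet
  exact (PiLp.volume_preserving_ofLp (Fin d)).measure_preimage hm.nullMeasurableSet

/-- the standard vectors -/
noncomputable def e (i : Fin d) : E d := EuclideanSpace.single i 1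

theorem conv_l1 (hd : 0 < d) :
    convexHull ℝ (Set.range (e (d := d)) ∪ Set.range (fun i => -e (d := d) i)) =
      {x : E d | ∑ i, |x i| ≤ 1} := by
  apply Subset.antisymm
  · apply convexHull_min
    · rintro x (⟨i, rfl⟩ | ⟨i, rfl⟩)
      · simp [e, PiLp.single_apply, apply_ite abs]
      · simp [e, PiLp.single_apply, apply_ite abs]
    · intro x hx y hy a b ha hb hab
      simp only [mem_ofPred_eq] at hx hy ⊢
      calc ∑ i, |(a • x + b • y) i| ≤ ∑ i, (a * |x i| + b * |y i|) := by
            refine Finset.sum_le_sum fun i _ => ?_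
            have : (a • x + b • y) i = a * x i + b * y i := rfl
            rw [this]
            refine (abs_add_le _ _).trans ?_
            rw [abs_mul, abs_mul, abs_of_nonneg ha, abs_of_nonneg hb]
        _ = a * ∑ i, |x i| + b * ∑ i, |y i| := by
            rw [Finset.sum_add_distrib, Finset.mul_sum, Finset.mul_sum]
        _ ≤ a * 1 + b * 1 := by gcongr
        _ = 1 := by rw [mul_one, mul_one, hab]
  · intro x hx
    simp only [mem_ofPred_eq] at hx
    set C := convexHull ℝ (Set.range (e (d := d)) ∪ Set.range (fun i => -e (d := d) i)) with hC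
    have hconv : Convex ℝ C := convex_convexHull ℝ _
    have hp : ∀ i, e (d := d) i ∈ C := fun i => subset_convexHull ℝ _ (Or.inl ⟨i, rfl⟩)
    have hm : ∀ i, -e (d := d) i ∈ C := fun i => subset_convexHull ℝ _ (Or.inr ⟨i, rfl⟩)
    have h0 : (0 : E d) ∈ C := by
      have := hconv (hp ⟨0, hd⟩) (hm ⟨0, hd⟩) (a := 1 / 2) (b := 1 / 2) (by norm_num) (by norm_num)
        (by norm_num)
      simpa using this
    have hz : ∀ i, (if 0 ≤ x i then e (d := d) i else -e i) ∈ C := by
      intro i
      split_ifs
      · exact hp i
      · exact hm i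
    have h1 := hconv.sum_mem (t := (Finset.univ : Finset (Option (Fin d))))
      (w := fun o => o.elim (1 - ∑ i, |x i|) (fun i => |x i|))
      (z := fun o => o.elim 0 (fun i => if 0 ≤ x i then e (d := d) i else -e i)) (by
        rintro (_ | i) _
        · simpa using hx
        · exact abs_nonneg _) (by
        rw [Fintype.sum_option]
        simp) (by
        rintro (_ | i) _
        · exact h0
        · exact hz i)
    rw [Fintype.sum_option] at h1
    simp only [Option.elim, smul_zero, zero_add] at h1
    have hxe : x = ∑ i, |x i| • (if 0 ≤ x i then e (d := d) i else -e i) := by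
      ext j
      rw [WithLp.ofLp_sum, Finset.sum_apply, Finset.sum_eq_single j]
      · split_ifs with h
        · simp [e, abs_of_nonneg h]
        · push Not at h
          simp [e, abs_of_neg h]
      · intro i _ hij
        split_ifs <;> simp [e, PiLp.single_apply, Ne.symm hij]
      · intro h
        exact absurd (Finset.mem_univ _) h
    exact Eq.mpr (congrArg (fun y => y ∈ C) hxe) h1

theorem t_CROSS : S_CROSS := by
  intro d v hd
  set b := (EuclideanSpace.basisFun (Fin d) ℝ).toBasis with hb
  set T : E d →ₗ[ℝ] E d := b.constr ℝ v with hT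
  have hTe : ∀ i, T (e i) = v i := by
    intro i
    have : e (d := d) i = b i := by
      rw [hb, OrthonormalBasis.coe_toBasis, EuclideanSpace.basisFun_apply]
      rfl
    rw [this, hT, Module.Basis.constr_basis]
  have hdet : |LinearMap.det T| = dt v := by
    rw [← LinearMap.det_toMatrix b, dt]
    congr 1
    rw [← Matrix.det_transpose]
    congr 1
    ext i j
    rw [Matrix.transpose_apply, LinearMap.toMatrix_apply, hT, Module.Basis.constr_basis]
    rfl
  have hset : convexHull ℝ (Set.range v ∪ Set.range (fun i => -v i)) =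
      T '' {x : E d | ∑ i, |x i| ≤ 1} := by
    rw [← conv_l1 hd, LinearMap.image_convexHull, image_union, ← range_comp, ← range_comp]
    congr 2
    · congr 1
      funext i
      exact (hTe i).symm
    · congr 1
      funext i
      simp [hTe i]
  rw [hset, Measure.addHaar_image_linearMap, hdet, volume_E d hd, ← ENNReal.ofReal_mul, mul_comm]
  exact abs_nonneg _

end Pool.Agent.W368.GM
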